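import Pool.Agent.MP_8331c1_co.Bin
import Pool.Agent.MP_8331c1_co.Tern
import Mathlib.Order.Bounds.Basic

namespace Pool.Agent.Results.MP_8331c1_co.D0LIndexThree

/-- The pattern `AABAACBAAB` is `k`-D0L-avoidable: there are a morphism `g` of the free monoid on
`k` letters and a letter `a` such that `g a` begins with `a`, the lengths of the words `g^n(a)` are
unbounded, and no `g^n(a)` has a factor `AABAACBAAB` with `A`, `B`, `C` non-empty words. -/
def D0LAvoidable (k : ℕ) : Prop :=
  ∃ (g : Fin k → List (Fin k)) (a : Fin k), (∃ t, g a = a :: t) ∧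
    (∀ N : ℕ, ∃ n : ℕ, N ≤ ((fun x : List (Fin k) => x.flatMap g)^[n] [a]).length) ∧
    ∀ (n : ℕ) (A B C : List (Fin k)), A ≠ [] → B ≠ [] → C ≠ [] →
      ¬ (A ++ A ++ B ++ A ++ A ++ C ++ B ++ A ++ A ++ B) <:+:
        ((fun x : List (Fin k) => x.flatMap g)^[n] [a])

theorem three : D0LAvoidable 3 := by
  refine ⟨Pool.Agent.MP_8331c1_co.Tern.g3, 0, ⟨[1, 2], rfl⟩, fun N => ⟨N, ?_⟩, ?_⟩
  · exact (Nat.le_succ N).trans (Pool.Agent.MP_8331c1_co.Tern.g3_len N)
  · intro n A B C hA _ _ h
    refine Pool.Agent.MP_8331c1_co.Tern.square_free n A hA (List.IsInfix.trans ?_ h)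
    exact ⟨[], B ++ A ++ A ++ C ++ B ++ A ++ A ++ B, by simp⟩

theorem two {k : ℕ} (hk : k ≤ 2) : ¬ D0LAvoidable k := by
  rintro ⟨g, a, ⟨t, ht⟩, hu, hav⟩
  let φ : Fin k → Bool := fun x => decide (x ≠ a)
  have hφ : Function.Injective φ := by
    intro x y h
    have hx := x.2
    have hy := y.2
    have ha := a.2
    simp only [φ, decide_eq_decide] at h
    by_cases e : x = a
    · by_cases e' : y = a
      · rw [e, e']
      · exact absurd e (h.2 e')
    · have e' := h.1 e
      apply Fin.ext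
      have h1 : x.val ≠ a.val := fun h => e (Fin.ext h)
      have h2 : y.val ≠ a.val := fun h => e' (Fin.ext h)
      omega
  haveI : Nonempty (Fin k) := ⟨a⟩
  let ψ : Bool → Fin k := Function.invFun φ
  have hψ : ∀ x, ψ (φ x) = x := Function.leftInverse_invFun hφ
  have hφa : φ a = false := by simp [φ]
  let g' : Bool → List Bool := fun c => (g (ψ c)).map φ
  have hstep : ∀ x : List (Fin k), Pool.Agent.MP_8331c1_co.Bin.ext g' (x.map φ) =
      (x.flatMap g).map φ := by
    intro x
    induction x with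
    | nil => rfl
    | cons b x ih =>
      have e1 : Pool.Agent.MP_8331c1_co.Bin.ext g' ((b :: x).map φ) =
          g' (φ b) ++ Pool.Agent.MP_8331c1_co.Bin.ext g' (x.map φ) := by
        simp [Pool.Agent.MP_8331c1_co.Bin.ext]
      rw [e1, ih]
      simp [g', hψ]
  have hW : ∀ n, Pool.Agent.MP_8331c1_co.Bin.W g' n =
      ((fun x : List (Fin k) => x.flatMap g)^[n] [a]).map φ := by
    intro n
    induction n with
    | zero => simp [Pool.Agent.MP_8331c1_co.Bin.W, hφa]
    | succ n ih =>
      rw [Pool.Agent.MP_8331c1_co.Bin.W_succ, ih, hstep, Function.iterate_succ_apply']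
  obtain ⟨A, B, C, hA, hB, hC, n, h⟩ := Pool.Agent.MP_8331c1_co.Bin.main (g := g')
    ⟨t.map φ, by
      have : ψ false = a := by rw [← hφa, hψ]
      simp only [g', this, ht, List.map_cons, hφa]⟩
    (fun N => by
      obtain ⟨n, hn⟩ := hu N
      exact ⟨n, by rw [hW, List.length_map]; exact hn⟩)
  have h2 := h.map ψ
  rw [hW, List.map_map] at h2
  have e3 : ψ ∘ φ = id := funext hψ
  rw [e3, List.map_id] at h2
  refine hav n (A.map ψ) (B.map ψ) (C.map ψ) (by simpa using hA) (by simpa using hB)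
    (by simpa using hC) ?_
  simpa only [List.map_append] using h2

/-- The least `k` for which the pattern `AABAACBAAB` is `k`-D0L-avoidable is `3`. -/
theorem result : IsLeast {k : ℕ | D0LAvoidable k} 3 := by
  refine ⟨three, fun k hk => ?_⟩
  by_contra h
  exact two (by omega) hk

end Pool.Agent.Results.MP_8331c1_co.D0LIndexThree
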